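import Pool.Agent.Run7.h659.HO2

/-!
# CM points, Hodge endomorphisms and isogenies in one-parameter variations of Hodge structure of geometric origin

Let `𝕍` be a polarizable variation of Hodge structure of geometric origin on an open subset of the projective line, defined
over a number field `L ⊂ ℂ`, with a good fibre at `z = 0` (for instance `R^j f_* ℤ` for a smooth projective family, of any
weight and with any Hodge numbers, with or without a Shimura datum, or a direct sum or tensor construction of such). Choose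
sections `ω_1, …, ω_n` of the de Rham bundle over `L`, regular near `0`, such that the sections `ω_j` with `j ∈ J_p` span
the step `F^p`. Let `Z` be the fundamental matrix of the Gauss-Manin connection at `z = 0`, `f Z' = Z A`; its entries are
G-functions (André). In a flat basis of the rational local system the coordinates of `ω_j(z)` are the entries of the
column `j` of `P(z) = C Z(z)`, with an invertible complex matrix `C`. So the fibre at `z` is the space `ℚ ^ n` with the
filtration of `ℂ ^ n` by the spans of the columns `j ∈ J_p` of `P(z)`. The monodromy group `Γ` preserves all relations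
over `ℂ[z]` between the entries of `P(z)`.

We prove: there are a radius `r` and a distance `G` such that all the following is true outside a set of at most `M`
integers, `M` depending on a degree `δ` etc., in all windows `[N, N + N ^ c]`.

1. For all `k`-tuples of integers `m_j` of the window outside this set, of distances at least `G`, every relation of degree
at most `δ` with coefficients in a `ℚ`-space `V ⊂ ℂ` of dimension at most `D` (of any size) between the entries of the
matrices `P(1 / m_1), …, P(1 / m_k)` is true for `g_1 P(1 / m_1), …, g_k P(1 / m_k)`, for all `g_j ∈ Γ`.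

2. For all integers `t` of the window outside this set: every endomorphism `φ` (with entries in `V`, for instance rational, and
of any size) of the filtered space at `1 / t` preserves the translates of the filtration by the elements of `Γ`. If
the filtration at `1 / t` has infinitely many translates by `Γ` (which is true at all points if `Γ` is infinite, by the
polarization), then `1 / t` is not a CM point; more generally no matrix over `V` with distinct eigenvalues preserves
the filtration (for `V` a number field `K`: the filtration at `1 / t` is not defined over `K`).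

3. For all `t`, `t'` of the window outside this set with `|t - t'| ≥ G`: the morphisms of the fibre at `1 / t` to the one at
`1 / t'` map each translate of the filtration of the first one to each translate of the one of the second; if one
of the filtrations has at least two translates the fibres are not isogenous.

The first statement is deduced from the theorem on functional relations for all tuples (`Pool.Agent.Run7.h659.TT`), the
others are consequences: the morphisms are described by relations of degree at most `n + 1`, and a matrix with distinct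
eigenvalues has only finitely many invariant subspaces.
-/

set_option autoImplicit false

open PowerSeries

namespace Pool.Agent.Results.MP_2794d1_ag.CMPointsInWindows

/-- The arithmetic conditions in the definition of a G-function over a number field: geometric growth of the conjugates of
the coefficients and of their common denominators. -/
def GCond {L : Type} [Field L] (g : L⟦X⟧) : Prop := ∃ C : ℝ, (∀ (φ : L →+* ℂ) (m : ℕ), ‖φ (coeff m g)‖ ≤ C ^ (m + 1)) ∧
  ∀ m, ∃ d : ℕ, 0 < d ∧ (d : ℝ) ≤ C ^ (m + 1) ∧ ∀ j ≤ m, IsIntegral ℤ ((d : L) * coeff j g)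

/-- `Z` is a fundamental matrix of G-functions of the system `f Z' = Z A`, regular at `0`, and `W` is its inverse. -/
structure IsGSystem {L : Type} [Field L] {n : ℕ} (f : Polynomial L) (A : Matrix (Fin n) (Fin n) (Polynomial L))
    (Z W : Matrix (Fin n) (Fin n) L⟦X⟧) : Prop where
  regular : f.coeff 0 ≠ 0
  ode : ∀ i j, (f : L⟦X⟧) * PowerSeries.derivative L (Z i j) = ∑ k, Z i k * (A k j : L⟦X⟧)
  inverse : W * Z = 1
  gZ : ∀ i j, GCond (Z i j)
  gW : ∀ i j, GCond (W i j)

/-- the matrix of the values `Z_(i,j)(z)` -/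
noncomputable def fundamental {L : Type} [Field L] [Algebra L ℂ] {n : ℕ} (Z : Matrix (Fin n) (Fin n) L⟦X⟧) (z : ℂ) :
    Matrix (Fin n) (Fin n) ℂ :=
  Matrix.of fun i j => ∑' m : ℕ, algebraMap L ℂ (coeff m (Z i j)) * z ^ m

/-- the filtration of `ℂ ^ n` by the subspaces spanned by the columns `j ∈ J p` of the matrix `P` -/
def filtration {n : ℕ} {ι : Type} (J : ι → Set (Fin n)) (P : Matrix (Fin n) (Fin n) ℂ) (p : ι) :
    Submodule ℂ (Fin n → ℂ) :=
  Submodule.span ℂ ((fun j i => P i j) '' J p)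

/-- the matrix `φ` maps the filtration `E` to the filtration `F` -/
def Maps {n : ℕ} {ι : Type} (φ : Matrix (Fin n) (Fin n) ℂ) (E F : ι → Submodule ℂ (Fin n → ℂ)) : Prop :=
  ∀ p, ∀ v ∈ E p, φ.mulVec v ∈ F p

/-- All elements of `Γ` preserve the relations with coefficients in `ℂ[z]` between the entries of `P(z)` on the discs around
`0` of radius at most `R`. This is true for the monodromy group: continue the relation along a loop. -/
def Monodromy {n : ℕ} (P : ℂ → Matrix (Fin n) (Fin n) ℂ) (R : ℝ) (Γ : Subgroup (GL (Fin n) ℂ)) : Prop :=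
  ∀ g ∈ Γ, ∀ r : ℝ, 0 < r → r ≤ R → ∀ F : MvPolynomial (Fin n × Fin n) (Polynomial ℂ),
    (∀ z : ℂ, ‖z‖ < r → F.eval₂ (Polynomial.evalRingHom z) (fun v => P z v.1 v.2) = 0) →
    ∀ z : ℂ, ‖z‖ < r → F.eval₂ (Polynomial.evalRingHom z)
      (fun v => ((g : Matrix (Fin n) (Fin n) ℂ) * P z) v.1 v.2) = 0

/-- `t` is an integer of the window `[N, N + N ^ c]` outside the set `S` -/
def Window (N : ℕ) (c : ℝ) (S : Finset ℕ) (t : ℕ) : Prop := N ≤ t ∧ (t : ℝ) ≤ N + (N : ℝ) ^ c ∧ t ∉ S

/-- Every polynomial relation of degree at most `δ` with coefficients in `V` between the entries of the matrices `Y_1, …, Y_k`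
is true for all `g_1 Y_1, …, g_k Y_k` with `g_j ∈ Γ`. -/
def RelationsInvariant {n k : ℕ} (Γ : Subgroup (GL (Fin n) ℂ)) (δ : ℕ) (V : Submodule ℚ ℂ)
    (Y : Fin k → Matrix (Fin n) (Fin n) ℂ) : Prop :=
  ∀ F : MvPolynomial (Σ _ : Fin k, Fin n × Fin n) ℂ, F.totalDegree ≤ δ → (∀ s, F.coeff s ∈ V) →
    MvPolynomial.aeval (fun v : Σ _ : Fin k, Fin n × Fin n => Y v.1 v.2.1 v.2.2) F = 0 →
    ∀ g : Fin k → GL (Fin n) ℂ, (∀ j, g j ∈ Γ) → MvPolynomial.aeval (fun v : Σ _ : Fin k, Fin n × Fin n =>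
      ((g v.1 : Matrix (Fin n) (Fin n) ℂ) * Y v.1) v.2.1 v.2.2) F = 0

/-- the translates of the filtration by the elements of `Γ` -/
def translates {n : ℕ} {ι : Type} (J : ι → Set (Fin n)) (Γ : Subgroup (GL (Fin n) ℂ)) (P : Matrix (Fin n) (Fin n) ℂ) :
    Set (ι → Submodule ℂ (Fin n → ℂ)) :=
  {E | ∃ g ∈ Γ, E = filtration J ((g : Matrix (Fin n) (Fin n) ℂ) * P)}

/-- A matrix with entries in `V` and distinct eigenvalues preserves the filtration. For `V = ℚ` and the Hodge filtration of a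
polarizable Hodge structure this means that the Mumford-Tate group is a torus. -/
def HasCM {n : ℕ} {ι : Type} (V : Submodule ℚ ℂ) (E : ι → Submodule ℂ (Fin n → ℂ)) : Prop :=
  ∃ φ : Matrix (Fin n) (Fin n) ℂ, (∀ i j, φ i j ∈ V) ∧ φ.charpoly.Separable ∧ Maps φ E E

/-- An invertible matrix with entries in `V` maps the first filtration to the second. -/
def Isogenous {n : ℕ} {ι : Type} (V : Submodule ℚ ℂ) (E F : ι → Submodule ℂ (Fin n → ℂ)) : Prop :=
  ∃ φ : Matrix (Fin n) (Fin n) ℂ, (∀ i j, φ i j ∈ V) ∧ φ.det ≠ 0 ∧ Maps φ E F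

/-- The elements of `Γ` are integral, and a positive definite hermitian form `Bᴴ B` is invariant under the elements of `Γ`
which preserve the filtration: this is true for the Hodge metric of a polarized variation of Hodge structure over `ℤ`. -/
def PolarizedAt {n : ℕ} {ι : Type} (J : ι → Set (Fin n)) (Γ : Subgroup (GL (Fin n) ℂ)) (P : Matrix (Fin n) (Fin n) ℂ) :
    Prop :=
  (∀ g ∈ Γ, ∀ i j, ∃ a : ℤ, (g : Matrix (Fin n) (Fin n) ℂ) i j = a) ∧
    ∃ B : Matrix (Fin n) (Fin n) ℂ, B.det ≠ 0 ∧ ∀ g ∈ Γ,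
      filtration J ((g : Matrix (Fin n) (Fin n) ℂ) * P) = filtration J P →
        (B * (g : Matrix (Fin n) (Fin n) ℂ)).conjTranspose * (B * (g : Matrix (Fin n) (Fin n) ℂ)) =
          B.conjTranspose * B

open Pool.Agent.Run7.h659.HO (cs_mul finite_unitary Pres vals Vn rel aeval_rel deg_rel coeff_rel inv_of_spec maps_iff finite_inv map_eq_of_le
  inj_of_det det_near)

theorem maps_filt {n : ℕ} {ι : Type} (J : ι → Set (Fin n)) (φ P : Matrix (Fin n) (Fin n) ℂ)
    {Q : Matrix (Fin n) (Fin n) ℂ} (hQ : Q.det ≠ 0) :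
    Maps φ (filtration J P) (filtration J Q) ↔ ∀ p, ∀ j ∈ J p, ∀ i, i ∉ J p → (Q.adjugate * φ * P) i j = 0 :=
  forall_congr' fun p => maps_iff φ P hQ (J p)

/-- morphisms at two points -/
theorem maps_of_inv {n k : ℕ} {ι : Type} (J : ι → Set (Fin n)) {Γ : Subgroup (GL (Fin n) ℂ)} {V : Submodule ℚ ℂ}
    {Y : Fin k → Matrix (Fin n) (Fin n) ℂ} (h : RelationsInvariant Γ (n + 1) V Y) (hY : ∀ j, (Y j).det ≠ 0)
    {φ : Matrix (Fin n) (Fin n) ℂ} (hφ : ∀ i j, φ i j ∈ V) (l l' : Fin k)
    (hm : Maps φ (filtration J (Y l)) (filtration J (Y l'))) (g : Fin k → GL (Fin n) ℂ) (hg : ∀ j, g j ∈ Γ) :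
    Maps φ (filtration J ((g l : Matrix (Fin n) (Fin n) ℂ) * Y l))
      (filtration J ((g l' : Matrix (Fin n) (Fin n) ℂ) * Y l')) := by
  have hd : ((g l' : Matrix (Fin n) (Fin n) ℂ) * Y l').det ≠ 0 := by
    rw [Matrix.det_mul]
    exact mul_ne_zero ((Matrix.isUnit_iff_isUnit_det _).1 (g l').isUnit).ne_zero (hY l')
  rw [maps_filt J φ _ (hY l')] at hm
  rw [maps_filt J φ _ hd]
  intro p j hj i hi
  have h1 := h (rel φ l l' i j) (deg_rel φ l l' i j) (coeff_rel V hφ l l' i j) (by
    have h2 := aeval_rel φ l l' i j Y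
    rw [hm p j hj i hi] at h2
    exact h2) g hg
  have h2 := aeval_rel φ l l' i j fun l => (g l : Matrix (Fin n) (Fin n) ℂ) * Y l
  rw [← h2]
  exact h1

theorem filt_mul {n : ℕ} {ι : Type} (J : ι → Set (Fin n)) (g P : Matrix (Fin n) (Fin n) ℂ) (p : ι) :
    filtration J (g * P) p = (filtration J P p).map (Matrix.mulVecLin g) := cs_mul g P (J p)

/-- for a polarized variation with infinite monodromy the filtration has infinitely many translates -/
theorem infinite_translates {n : ℕ} {ι : Type} {J : ι → Set (Fin n)} {Γ : Subgroup (GL (Fin n) ℂ)}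
    {P : Matrix (Fin n) (Fin n) ℂ} (h : PolarizedAt J Γ P) (hΓ : (Γ : Set (GL (Fin n) ℂ)).Infinite) :
    (translates J Γ P).Infinite := by
  obtain ⟨hint, B, hB, hst⟩ := h
  intro hfin
  apply hΓ
  have hstab : {g : GL (Fin n) ℂ | g ∈ Γ ∧
      filtration J ((g : Matrix (Fin n) (Fin n) ℂ) * P) = filtration J P}.Finite := by
    refine Set.Finite.of_finite_image (f := fun g : GL (Fin n) ℂ => (g : Matrix (Fin n) (Fin n) ℂ)) ?_
      (Units.val_injective.injOn)
    refine Set.Finite.subset (finite_unitary hB) ?_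
    rintro _ ⟨g, ⟨hg, hgf⟩, rfl⟩
    exact ⟨hint g hg, hst g hg hgf⟩
  refine Set.Finite.of_finite_fibers (fun g : GL (Fin n) ℂ => filtration J ((g : Matrix (Fin n) (Fin n) ℂ) * P)) ?_ ?_
  · refine Set.Finite.subset hfin ?_
    rintro _ ⟨g, hg, rfl⟩
    exact ⟨g, hg, rfl⟩
  · rintro _ ⟨g₀, hg₀, rfl⟩
    refine Set.Finite.subset (hstab.image fun g => g₀ * g) ?_
    rintro g ⟨hg, hgf⟩
    have hgf' : filtration J ((g : Matrix (Fin n) (Fin n) ℂ) * P) =
      filtration J ((g₀ : Matrix (Fin n) (Fin n) ℂ) * P) := hgf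
    refine ⟨g₀⁻¹ * g, ⟨Γ.mul_mem (Γ.inv_mem hg₀) hg, ?_⟩, by simp⟩
    funext p
    have h1 : ((g₀⁻¹ * g : GL (Fin n) ℂ) : Matrix (Fin n) (Fin n) ℂ) * P =
        ((g₀⁻¹ : GL (Fin n) ℂ) : Matrix (Fin n) (Fin n) ℂ) * ((g : Matrix (Fin n) (Fin n) ℂ) * P) := by
      rw [Units.val_mul, mul_assoc]
    rw [h1, filt_mul, congrFun hgf' p, ← filt_mul, ← mul_assoc, ← Units.val_mul, inv_mul_cancel, Units.val_one, one_mul]

/-- **CM points, endomorphisms and isogenies in windows.** -/
theorem result {L : Type} [Field L] [NumberField L] [Algebra L ℂ] {n : ℕ} (f : Polynomial L)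
    (A : Matrix (Fin n) (Fin n) (Polynomial L)) (Z W : Matrix (Fin n) (Fin n) L⟦X⟧) (h : IsGSystem f A Z W)
    (C : Matrix (Fin n) (Fin n) ℂ) (hC : C.det ≠ 0) (R : ℝ) (hR : 0 < R) (Γ : Subgroup (GL (Fin n) ℂ))
    (hΓ : Monodromy (fun z => C * fundamental Z z) R Γ) {ι : Type} [Finite ι] (J : ι → Set (Fin n)) :
    (∀ Q : Matrix (Fin n) (Fin n) ℂ, PolarizedAt J Γ Q → (Γ : Set (GL (Fin n) ℂ)).Infinite →
      (translates J Γ Q).Infinite) ∧
    ∃ r : ℝ, 0 < r ∧ r ≤ R ∧ ∃ G : ℕ,
      (∀ k δ D : ℕ, ∃ M : ℕ, ∃ c : ℝ, 0 < c ∧ ∀ V : Submodule ℚ ℂ, Module.Finite ℚ V → Module.finrank ℚ V ≤ D →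
        ∀ N : ℕ, 1 ≤ N → ∃ S : Finset ℕ, S.card ≤ M ∧
          ∀ m : Fin k → ℕ, (∀ i j, i ≠ j → (G : ℤ) ≤ |(m i : ℤ) - m j|) → (∀ j, Window N c S (m j)) →
            (∀ j, 1 / (m j : ℝ) < r) ∧ RelationsInvariant Γ δ V fun j => C * fundamental Z (1 / (m j : ℂ))) ∧
      ∀ D : ℕ, ∃ M : ℕ, ∃ c : ℝ, 0 < c ∧ ∀ V : Submodule ℚ ℂ, Module.Finite ℚ V → Module.finrank ℚ V ≤ D →
        ∀ N : ℕ, 1 ≤ N → ∃ S : Finset ℕ, S.card ≤ M ∧
          (∀ t : ℕ, Window N c S t → 1 / (t : ℝ) < r ∧
            (∀ φ : Matrix (Fin n) (Fin n) ℂ, (∀ i j, φ i j ∈ V) →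
              Maps φ (filtration J (C * fundamental Z (1 / (t : ℂ)))) (filtration J (C * fundamental Z (1 / (t : ℂ)))) →
              ∀ E ∈ translates J Γ (C * fundamental Z (1 / (t : ℂ))), Maps φ E E) ∧
            ((translates J Γ (C * fundamental Z (1 / (t : ℂ)))).Infinite →
              ¬ HasCM V (filtration J (C * fundamental Z (1 / (t : ℂ)))))) ∧
          ∀ t t' : ℕ, Window N c S t → Window N c S t' → (G : ℤ) ≤ |(t : ℤ) - t'| →
            (∀ φ : Matrix (Fin n) (Fin n) ℂ, (∀ i j, φ i j ∈ V) →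
              Maps φ (filtration J (C * fundamental Z (1 / (t : ℂ)))) (filtration J (C * fundamental Z (1 / (t' : ℂ)))) →
              ∀ E ∈ translates J Γ (C * fundamental Z (1 / (t : ℂ))),
                ∀ E' ∈ translates J Γ (C * fundamental Z (1 / (t' : ℂ))), Maps φ E E') ∧
            ((translates J Γ (C * fundamental Z (1 / (t : ℂ)))).Nontrivial ∨
              (translates J Γ (C * fundamental Z (1 / (t' : ℂ)))).Nontrivial →
              ¬ Isogenous V (filtration J (C * fundamental Z (1 / (t : ℂ))))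
                (filtration J (C * fundamental Z (1 / (t' : ℂ))))) := by
  refine ⟨fun Q hQ hi => infinite_translates hQ hi, ?_⟩
  -- the matrix `P`
  set P : ℂ → Matrix (Fin n) (Fin n) ℂ := fun z => C * fundamental Z z with hP
  have hD : Pool.Agent.Y921.DB.DatL f (fun i j => A i j) (fun i j => Z i j) (fun i j => W i j) := by
    refine ⟨h.regular, h.ode, fun i j => ?_, h.gZ, h.gW⟩
    have h1 : (W * Z) i j = (1 : Matrix (Fin n) (Fin n) L⟦X⟧) i j := by rw [h.inverse]
    rw [Matrix.mul_apply] at h1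
    rw [h1, Matrix.one_apply]
  obtain ⟨r₁, hr₁, hdet⟩ : ∃ r₁ : ℝ, 0 < r₁ ∧ ∀ z : ℂ, ‖z‖ < r₁ → (P z).det ≠ 0 := by
    obtain ⟨r₁, hr₁, h1⟩ := det_near (a := fun i j m => algebraMap L ℂ (coeff m (Z i j))) (fun i j => by
      obtain ⟨C', hC', -⟩ := h.gZ i j
      exact ⟨C', fun m => hC' (algebraMap L ℂ) m⟩) (by
      intro h0
      have h2 : (W.map (fun s => algebraMap L ℂ (constantCoeff s))) *
          (Matrix.of fun i j => algebraMap L ℂ (coeff 0 (Z i j))) = 1 := by
        have h3 : (W * Z).map ((algebraMap L ℂ).comp (constantCoeff (R := L))) =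
            (1 : Matrix (Fin n) (Fin n) L⟦X⟧).map ((algebraMap L ℂ).comp (constantCoeff (R := L))) := by
          rw [h.inverse]
        rw [Matrix.map_mul, Matrix.map_one _ (map_zero _) (map_one _)] at h3
        rw [← h3]
        congr 1
        ext i j
        simp
      have h4 := congrArg Matrix.det h2
      rw [Matrix.det_mul, h0, mul_zero, Matrix.det_one] at h4
      exact zero_ne_one h4)
    refine ⟨r₁, hr₁, fun z hz => ?_⟩
    rw [hP]
    simp only
    rw [Matrix.det_mul]
    exact mul_ne_zero hC (h1 z hz)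
  obtain ⟨n', F', B, Z', W', c', r₂, hD', hr₂, hc'⟩ := Pool.Agent.Run7.h659.TT.res_one hD
    (fun (v : Fin n × Fin n) q => q.elim 0 fun q => if q.2 = v.2 then C v.1 q.1 else 0)
  have hrep : ∀ z : ℂ, ‖z‖ < r₂ → ∀ v : Fin n × Fin n, P z v.1 v.2 = Pool.Agent.Run7.h659.TT.p1 c' Z' z v := by
    intro z hz v
    rw [← hc' z hz v, Fintype.sum_option]
    simp only [Option.elim_none, Option.elim_some, zero_mul, zero_add]
    rw [Fintype.sum_prod_type]
    simp only [ite_mul, zero_mul, Finset.sum_ite_eq', Finset.mem_univ, if_true]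
    rw [hP]
    simp only
    rw [Matrix.mul_apply]
    rfl
  obtain ⟨r, hr, hrr, G, -, hwin⟩ := Pool.Agent.Run7.h659.TT.win_all hD' (r₀ := min R (min r₁ r₂))
    (lt_min hR (lt_min hr₁ hr₂)) (p := fun (z : ℂ) (v : Fin n × Fin n) => P z v.1 v.2) (c' := c')
    (fun z hz v => hrep z (hz.trans_le ((min_le_right _ _).trans (min_le_right _ _))) v)
  have hrR : r ≤ R := hrr.trans (min_le_left _ _)
  have hrr₁ : r ≤ r₁ := hrr.trans ((min_le_right _ _).trans (min_le_left _ _))
  -- the first part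
  have part1 : ∀ k δ D : ℕ, ∃ M : ℕ, ∃ c : ℝ, 0 < c ∧ ∀ V : Submodule ℚ ℂ, Module.Finite ℚ V →
      Module.finrank ℚ V ≤ D → ∀ N : ℕ, 1 ≤ N → ∃ S : Finset ℕ, S.card ≤ M ∧
        ∀ m : Fin k → ℕ, (∀ i j, i ≠ j → (G : ℤ) ≤ |(m i : ℤ) - m j|) → (∀ j, Window N c S (m j)) →
          (∀ j, 1 / (m j : ℝ) < r) ∧ RelationsInvariant Γ δ V fun j => P (1 / (m j : ℂ)) := by
    intro k δ D
    obtain ⟨M, c, hc, hM⟩ := hwin k (fun _ => Fin n × Fin n) (fun _ v => v) δ D
    refine ⟨M, c, hc, fun V hV hVD N hN => ?_⟩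
    obtain ⟨S, hS, hS'⟩ := hM V hV hVD N hN
    refine ⟨S, hS, fun m hm hmS => ?_⟩
    obtain ⟨h1, h2⟩ := hS' m hm hmS
    refine ⟨h1, fun F hF hFV h0 g hg => ?_⟩
    exact inv_of_spec (P := P) hr hrR h1 h2 F hF hFV h0 (fun j => (g j : Matrix (Fin n) (Fin n) ℂ))
      (fun j => hΓ (g j) (hg j))
  refine ⟨r, hr, hrR, G, part1, ?_⟩
  intro D
  obtain ⟨M₁, c₁, hc₁, hM₁⟩ := part1 1 (n + 1) D
  obtain ⟨M₂, c₂, hc₂, hM₂⟩ := part1 2 (n + 1) D
  refine ⟨M₁ + M₂, min c₁ c₂, lt_min hc₁ hc₂, fun V hV hVD N hN => ?_⟩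
  obtain ⟨S₁, hS₁, hS₁'⟩ := hM₁ V hV hVD N hN
  obtain ⟨S₂, hS₂, hS₂'⟩ := hM₂ V hV hVD N hN
  classical
  have hN1 : (1 : ℝ) ≤ N := by exact_mod_cast hN
  have hw₁ : ∀ t, Window N (min c₁ c₂) (S₁ ∪ S₂) t → Window N c₁ S₁ t := fun t ht =>
    ⟨ht.1, ht.2.1.trans (add_le_add le_rfl (Real.rpow_le_rpow_of_exponent_le hN1 (min_le_left _ _))),
      fun h => ht.2.2 (Finset.mem_union_left _ h)⟩
  have hw₂ : ∀ t, Window N (min c₁ c₂) (S₁ ∪ S₂) t → Window N c₂ S₂ t := fun t ht =>
    ⟨ht.1, ht.2.1.trans (add_le_add le_rfl (Real.rpow_le_rpow_of_exponent_le hN1 (min_le_right _ _))),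
      fun h => ht.2.2 (Finset.mem_union_right _ h)⟩
  have hpt : ∀ t : ℕ, 1 / (t : ℝ) < r → (P (1 / (t : ℂ))).det ≠ 0 := by
    intro t ht
    refine hdet _ ?_
    rw [norm_div, norm_one, Complex.norm_natCast]
    exact ht.trans_le hrr₁
  refine ⟨S₁ ∪ S₂, (Finset.card_union_le _ _).trans (add_le_add hS₁ hS₂), ?_, ?_⟩
  · -- one point
    intro t ht
    obtain ⟨h1, h2⟩ := hS₁' (fun _ => t) (fun i j hij => absurd (Subsingleton.elim i j) hij) fun _ => hw₁ t ht
    have h1 := h1 0
    have hend : ∀ φ : Matrix (Fin n) (Fin n) ℂ, (∀ i j, φ i j ∈ V) →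
        Maps φ (filtration J (P (1 / (t : ℂ)))) (filtration J (P (1 / (t : ℂ)))) →
        ∀ E ∈ translates J Γ (P (1 / (t : ℂ))), Maps φ E E := by
      rintro φ hφ hm E ⟨g, hg, rfl⟩
      exact maps_of_inv J h2 (fun _ => hpt t h1) hφ 0 0 hm (fun _ => g) fun _ => hg
    refine ⟨h1, hend, ?_⟩
    rintro hinf ⟨φ, hφ, hsep, hm⟩
    refine hinf (Set.Finite.subset (Set.Finite.pi' fun _ : ι => finite_inv φ hsep) ?_)
    intro E hE p v hv
    exact hend φ hφ hm E hE p v hv
  · -- two points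
    intro t t' ht ht' hG
    obtain ⟨h1, h2⟩ := hS₂' ![t, t'] (by
      intro i j hij
      fin_cases i <;> fin_cases j
      · exact absurd rfl hij
      · exact hG
      · change (G : ℤ) ≤ |(t' : ℤ) - t|
        rw [abs_sub_comm]
        exact hG
      · exact absurd rfl hij) (by
      intro j
      fin_cases j
      · exact hw₂ t ht
      · exact hw₂ t' ht')
    have ht1 : 1 / (t : ℝ) < r := h1 0
    have ht2 : 1 / (t' : ℝ) < r := h1 1
    have hY : ∀ j : Fin 2, (P (1 / ((![t, t'] j : ℕ) : ℂ))).det ≠ 0 := by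
      intro j
      fin_cases j
      · exact hpt t ht1
      · exact hpt t' ht2
    have hhom : ∀ φ : Matrix (Fin n) (Fin n) ℂ, (∀ i j, φ i j ∈ V) →
        Maps φ (filtration J (P (1 / (t : ℂ)))) (filtration J (P (1 / (t' : ℂ)))) →
        ∀ E ∈ translates J Γ (P (1 / (t : ℂ))), ∀ E' ∈ translates J Γ (P (1 / (t' : ℂ))), Maps φ E E' := by
      rintro φ hφ hm E ⟨g, hg, rfl⟩ E' ⟨g', hg', rfl⟩
      exact maps_of_inv J h2 hY hφ 0 1 hm ![g, g'] (by
        intro j
        fin_cases j
        · exact hg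
        · exact hg')
    refine ⟨hhom, ?_⟩
    rintro hnt ⟨φ, hφ, hdφ, hm⟩
    have hgd : ∀ g : GL (Fin n) ℂ, ∀ Q : Matrix (Fin n) (Fin n) ℂ, Q.det ≠ 0 →
        ((g : Matrix (Fin n) (Fin n) ℂ) * Q).det ≠ 0 := by
      intro g Q hQ
      rw [Matrix.det_mul]
      exact mul_ne_zero ((Matrix.isUnit_iff_isUnit_det _).1 g.isUnit).ne_zero hQ
    have heq : ∀ E ∈ translates J Γ (P (1 / (t : ℂ))), ∀ E' ∈ translates J Γ (P (1 / (t' : ℂ))), ∀ p,
        (E p).map (Matrix.mulVecLin φ) = E' p := by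
      intro E hE E' hE' p
      have h3 := hhom φ hφ hm E hE E' hE' p
      obtain ⟨g, hg, rfl⟩ := hE
      obtain ⟨g', hg', rfl⟩ := hE'
      exact map_eq_of_le hdφ (hgd g _ (hpt t ht1)) (hgd g' _ (hpt t' ht2)) h3
    have hne : ∀ Q : Matrix (Fin n) (Fin n) ℂ, filtration J Q ∈ translates J Γ Q := fun Q =>
      ⟨1, Γ.one_mem, by rw [Units.val_one, one_mul]⟩
    rcases hnt with hnt | hnt
    · obtain ⟨E₁, hE₁, E₂, hE₂, h3⟩ := hnt
      apply h3
      funext p
      have h4 := (heq E₁ hE₁ _ (hne _) p).trans (heq E₂ hE₂ _ (hne _) p).symm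
      exact Submodule.map_injective_of_injective (inj_of_det hdφ) h4
    · obtain ⟨E₁, hE₁, E₂, hE₂, h3⟩ := hnt
      apply h3
      funext p
      exact (heq _ (hne _) E₁ hE₁ p).symm.trans (heq _ (hne _) E₂ hE₂ p)

end Pool.Agent.Results.MP_2794d1_ag.CMPointsInWindows
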